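import Pool.Agent.Q285.GL.Artin

/-!
# The normal law for the primes of Lenstra's sets and for the index of polynomial families of groups

Lenstra's set `𝒮(F, C, W, k)` consists of the primes `q` with Frobenius class in `C` at which `W ≤ ℚˣ` is
a group of units whose reduction has an index dividing `k`. Let `f_1, ..., f_r` be arbitrary polynomials
in `d` variables over `ℤ`, `W₀` an arbitrary subgroup of `ℚˣ`, and let
`W_ν = ⟨W₀, f_1(ν), ..., f_r(ν)⟩`, `ν ∈ ℤ ^ d`. Let `w(q, j)` be arbitrary weights with `|w(q, j)| ≤ 1`.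

(1) For every `ε > 0` there are constants such that the sum of `w(q, r_q(W_ν))` over the primes `q ≤ x` at
which `W_ν` consists of units obeys the normal law up to `ε`, with the mean and the variance of the model of
independent residues, when `ν` runs through ANY box of integer vectors whose sides are at least
`C₀ (d + 1) x ^ K`, as soon as the variance of the model is at least `V₀`. The constants depend on `ε` only,
not on the polynomials, `W₀`, the weights, `x`, and the position of the box. With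
`w(q, j) = 1` if `j ∣ k` and the Frobenius class of `q` meets `C`, and `w(q, j) = 0` otherwise, the sum is the
number of the primes `q ≤ x` in `𝒮(F, C, W_ν, k)`.

(2) For `W_n = ⟨W₀, n⟩` the hypothesis on the variance is explicit: it suffices that the sum of `1/q` over
the primes `q ≤ x` with Frobenius class meeting `C`, at which `W₀` consists of units, is at least `V₁(ε)`;
uniformly in `F, C, W₀, k`.

(3) Artin's case: for all `x ≥ x₀(ε)` and every interval of at least `x ^ K` integers `n` the number of the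
primes `q ≤ x` with the primitive root `n` has, up to `ε`, the normal law with the mean `∑ φ(q-1)/q` and the
variance `∑ φ(q-1)/q (1 - φ(q-1)/q)`.

So the square root of the main term is the true order of the error term in the conjectures of Artin and
Lenstra for most groups of every such family.

Proof. The index at `q` is a function of `ν` modulo `q` (`Pool.Agent.Q285.GL.Red`); the normal law for sums
of functions of residues over boxes is helper282's theorem `Q282LT.gauss_z` (moments and Esseen's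
inequality).
-/

set_option autoImplicit false

namespace Pool.Agent.Results.MP_48b1c3_nt.GaussianLaw

open Finset NumberField Pool.Agent.Q285.GL

/-- the Frobenius conjugacy class of `q` in `G(F/ℚ)` meets `C` -/
def FrobIn (F : IntermediateField ℚ (AlgebraicClosure ℚ)) [NumberField F]
    (C : Set (F ≃ₐ[ℚ] F)) (q : ℕ) : Prop :=
  ∃ σ ∈ C, ∃ Q : Ideal (𝓞 F), Q.IsPrime ∧
    Q.comap (algebraMap ℤ (𝓞 F)) = Ideal.span {(q : ℤ)} ∧
    ∀ a b : 𝓞 F, (b : F) = σ (a : F) → b - a ^ q ∈ Q

/-- `q` is in the set `𝒮(F, C, W, k)` of Q1: the Frobenius condition, `W` consists of `q`-units, and the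
index of `W` modulo `q` divides `k` -/
def InS (F : IntermediateField ℚ (AlgebraicClosure ℚ)) [NumberField F]
    (C : Set (F ≃ₐ[ℚ] F)) (W : Subgroup ℚˣ) (k q : ℕ) : Prop :=
  FrobIn F C q ∧ (∀ w ∈ W, padicValRat q (w : ℚ) = 0) ∧ (reduction W q).index ∣ k

open Classical in
/-- the number of the primes `q ≤ x` in `𝒮(F, C, W, k)` -/
noncomputable def count (F : IntermediateField ℚ (AlgebraicClosure ℚ)) [NumberField F]
    (C : Set (F ≃ₐ[ℚ] F)) (W : Subgroup ℚˣ) (k x : ℕ) : ℕ :=
  #((range (x + 1)).filter fun q => q.Prime ∧ InS F C W k q)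

open Classical in
/-- the proportion of the residues `n` modulo `q`, not zero, with `q ∈ 𝒮(F, C, ⟨W₀, n⟩, k)` -/
noncomputable def localDensity (F : IntermediateField ℚ (AlgebraicClosure ℚ)) [NumberField F]
    (C : Set (F ≃ₐ[ℚ] F)) (W₀ : Subgroup ℚˣ) (k q : ℕ) : ℝ :=
  (#((Ico 1 q).filter fun n : ℕ => InS F C (gen1 W₀ n) k q) : ℝ) / q

open Classical in
/-- the sum of `1/q` over the primes `q ≤ x` with Frobenius class meeting `C` at which `W₀` consists of
units -/
noncomputable def reciprocals (F : IntermediateField ℚ (AlgebraicClosure ℚ)) [NumberField F]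
    (C : Set (F ≃ₐ[ℚ] F)) (W₀ : Subgroup ℚˣ) (x : ℕ) : ℝ :=
  ∑ q ∈ (range (x + 1)).filter fun q => q.Prime ∧ FrobIn F C q ∧
    ∀ w ∈ W₀, padicValRat q (w : ℚ) = 0, 1 / (q : ℝ)

/-- Up to `ε` the number `N n`, for the integers `m ≤ n < m + L`, has the normal law with the mean
`∑ P q` and the variance `∑ P q (1 - P q)`, sums over the primes `q ≤ x`. -/
def IsNormal (ε : ℝ) (N : ℤ → ℕ) (P : ℕ → ℝ) (x : ℕ) (m : ℤ) (L : ℕ) : Prop :=
  ∀ y : ℝ, |share m L (fun n => (N n : ℝ) ≤ (∑ q ∈ (range (x + 1)).filter Nat.Prime, P q) +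
    y * Real.sqrt (∑ q ∈ (range (x + 1)).filter Nat.Prime, P q * (1 - P q))) - Phi y| ≤ ε

/-- **Main result.** -/
theorem result :
    -- (1) polynomial families of groups and arbitrary weights
    (∀ ε : ℝ, 0 < ε → ∃ (V₀ C₀ : ℝ) (K : ℕ), 0 < V₀ ∧ 0 < C₀ ∧
      ∀ (d r : ℕ) (f : Fin r → MvPolynomial (Fin d) ℤ) (W₀ : Subgroup ℚˣ) (w : ℕ → ℕ → ℝ),
        (∀ q j, |w q j| ≤ 1) →
        ∀ x : ℕ, V₀ ≤ modelVariance w W₀ f x → ∀ (m : Fin d → ℤ) (L : Fin d → ℕ),
          (∀ i, C₀ * (d + 1) * (x : ℝ) ^ K ≤ L i) → ∀ y : ℝ,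
            |proportion m L (fun ν => total w W₀ f x ν ≤
              modelMean w W₀ f x + y * Real.sqrt (modelVariance w W₀ f x)) - Phi y| ≤ ε) ∧
    -- (2) Lenstra's sets for `⟨W₀, n⟩`
    (∀ ε : ℝ, 0 < ε → ∃ (V₁ : ℝ) (K : ℕ),
      ∀ (F : IntermediateField ℚ (AlgebraicClosure ℚ)) [NumberField F] (C : Set (F ≃ₐ[ℚ] F))
        (W₀ : Subgroup ℚˣ) (k x : ℕ), V₁ ≤ reciprocals F C W₀ x →
        ∀ (m : ℤ) (L : ℕ), (x : ℝ) ^ K ≤ L →
          IsNormal ε (fun n => count F C (gen1 W₀ n) k x) (localDensity F C W₀ k) x m L) ∧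
    -- (3) Artin's case
    (∀ ε : ℝ, 0 < ε → ∃ (x₀ K : ℕ), ∀ x : ℕ, x₀ ≤ x → ∀ (m : ℤ) (L : ℕ), x ^ K ≤ L →
      IsNormal ε (fun n => artin n x) (fun q => (Nat.totient (q - 1) : ℝ) / q) x m L) := by
  classical
  refine ⟨fun ε hε => law ε hε, fun ε hε => ?_, fun ε hε => law_artin ε hε⟩
  obtain ⟨V₁, K, h⟩ := law_one ε hε
  refine ⟨V₁, K, ?_⟩
  intro F _ C W₀ k x hx m L hL y
  have e0 : ∀ (W : Subgroup ℚˣ) (q : ℕ), Cond (fun q j => FrobIn F C q ∧ j ∣ k) W q ↔ InS F C W k q := by
    intro W q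
    unfold Cond InS
    tauto
  have e1 : ∀ W : Subgroup ℚˣ, cnt (fun q j => FrobIn F C q ∧ j ∣ k) W x = count F C W k x := by
    intro W
    unfold cnt count
    congr 1
    ext q
    simp only [mem_filter, e0]
  have e2 : ∀ q, Pool.Agent.Q285.GL.dens (fun q j => FrobIn F C q ∧ j ∣ k) W₀ q = localDensity F C W₀ k q := by
    intro q
    unfold Pool.Agent.Q285.GL.dens localDensity
    congr 3
    ext n
    simp only [mem_filter, e0]
  have e3 : mass (fun q j => FrobIn F C q ∧ j ∣ k) W₀ x = reciprocals F C W₀ x := by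
    unfold mass reciprocals
    refine sum_congr ?_ fun _ _ => rfl
    ext q
    simp only [mem_filter, one_dvd, and_true]
    tauto
  have key := h W₀ (fun q j => FrobIn F C q ∧ j ∣ k) x (by rw [e3]; exact hx) m L hL y
  simp only [e1, e2] at key
  exact key

end Pool.Agent.Results.MP_48b1c3_nt.GaussianLaw
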