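import Pool.Agent.Q69.CR.Len

/-!
# Large and moderate deviations for the counting functions of Lenstra's sets

Lenstra's set `𝒮(F, C, W, k)` consists of the primes `q` with Frobenius class in `C` at which `W ≤ ℚˣ` is a group of units whose
reduction has an index dividing `k`. Let `f_1, ..., f_r` be arbitrary polynomials in `d` variables over `ℤ`, `W₀` an arbitrary subgroup of
`ℚˣ`, and `W_ν = ⟨W₀, f_1(ν), ..., f_r(ν)⟩`, `ν ∈ ℤ ^ d`. Let `P_q` be the proportion of the residues `ν` modulo `q` with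
`q ∈ 𝒮(F, C, W_ν, k)`. By the law for typical `ν` the number of the primes `q ≤ x` in `𝒮(F, C, W_ν, k)` is `∑ P_q` up to
`O((∑ P_q (1 - P_q)) ^ (1 / 2))` (`MP_48b1c3_nt.GaussianLaw`). Here the exact exponential rate of the exceptional groups is determined.

(1) Cramér's theorem: the proportion of the `ν` of a box for which the counting function is at least `∑ P_q e^t / (1 - P_q + P_q e^t)` is
`exp (-(1 + o(1)) R(t))` with `R(t) = ∑ (t P_q e^t / (1 - P_q + P_q e^t) - log (1 - P_q + P_q e^t))`, the rate of independent events with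
the probabilities `P_q`, and the same is true for the lower tail (`t < 0`). It is uniform for all `t` with `|t| ≤ T` and
`t ^ 2 ∑ P_q (1 - P_q) ≥ v₀`, for all data `f, W₀, F, C, k`, and for all boxes with sides `≥ (d + 1) x ^ (K t ^ 2 ∑ P_q (1 - P_q))`.

(2) Artin's case: for the number of the primes `q ≤ x` with the primitive root `n` the same is true with `P_q = φ(q - 1) / q`, for the
integers `n` of any interval of length at least `x ^ (K t ^ 2 ∑ P_q (1 - P_q))`.

(3), (4) Moderate deviations: the proportion of the `ν` for which the counting function differs from `∑ P_q` by at least `y` times the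
square root of the variance, in a given direction, is `exp (-(1 + o(1)) y ^ 2 / 2)`, for all boxes with sides `≥ (d + 1) x ^ (K y ^ 2)`.

Proof. The index at `q` is a function of `ν` modulo `q` (library `Q285.GL`). Cramér's theorem for sums over coprime moduli of functions of
the residues of a random point of a box (`Q69.CR`): the exponential moments of the sum are compared with those of independent variables by
means of truncated exponential series, whose terms have only few moduli; the lower bound uses the tilted measure.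
-/

set_option autoImplicit false

namespace Pool.Agent.Results.MP_48b1c3_nt.LargeDeviations

open Finset NumberField Pool.Agent.Q285.GL

/-- the Frobenius conjugacy class of `q` in `G(F/ℚ)` meets `C` -/
def FrobIn (F : IntermediateField ℚ (AlgebraicClosure ℚ)) [NumberField F]
    (C : Set (F ≃ₐ[ℚ] F)) (q : ℕ) : Prop :=
  ∃ σ ∈ C, ∃ Q : Ideal (𝓞 F), Q.IsPrime ∧
    Q.comap (algebraMap ℤ (𝓞 F)) = Ideal.span {(q : ℤ)} ∧
    ∀ a b : 𝓞 F, (b : F) = σ (a : F) → b - a ^ q ∈ Q

/-- `q` is in the set `𝒮(F, C, W, k)` of Q1: the Frobenius condition, `W` consists of `q`-units, and the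
index of `W` modulo `q` divides `k` -/
def InS (F : IntermediateField ℚ (AlgebraicClosure ℚ)) [NumberField F]
    (C : Set (F ≃ₐ[ℚ] F)) (W : Subgroup ℚˣ) (k q : ℕ) : Prop :=
  FrobIn F C q ∧ (∀ w ∈ W, padicValRat q (w : ℚ) = 0) ∧ (reduction W q).index ∣ k

/-- the values of the polynomials -/
noncomputable def vals {d r : ℕ} (f : Fin r → MvPolynomial (Fin d) ℤ) (ν : Fin d → ℤ) : Fin r → ℤ := fun i => MvPolynomial.eval ν (f i)

open Classical in
/-- the number of the primes `q ≤ x` in `𝒮(F, C, ⟨W₀, f_1(ν), ..., f_r(ν)⟩, k)`, and `0` if some `f_i(ν) = 0` -/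
noncomputable def count (F : IntermediateField ℚ (AlgebraicClosure ℚ)) [NumberField F]
    (C : Set (F ≃ₐ[ℚ] F)) (W₀ : Subgroup ℚˣ) (k : ℕ) {d r : ℕ} (f : Fin r → MvPolynomial (Fin d) ℤ) (x : ℕ) (ν : Fin d → ℤ) : ℕ :=
  if ∀ i, vals f ν i ≠ 0 then #((range (x + 1)).filter fun q => q.Prime ∧ InS F C (gen W₀ (vals f ν)) k q) else 0

open Classical in
/-- the proportion of the residue vectors `ν` modulo `q` for which no `f_i(ν)` is divisible by `q` and
`q ∈ 𝒮(F, C, ⟨W₀, f_1(ν), ..., f_r(ν)⟩, k)` -/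
noncomputable def localDensity (F : IntermediateField ℚ (AlgebraicClosure ℚ)) [NumberField F]
    (C : Set (F ≃ₐ[ℚ] F)) (W₀ : Subgroup ℚˣ) (k : ℕ) {d r : ℕ} (f : Fin r → MvPolynomial (Fin d) ℤ) (q : ℕ) : ℝ :=
  (#((Fintype.piFinset fun _ : Fin d => range q).filter fun ν => (∀ i, ¬ (q : ℤ) ∣ vals f (fun j => (ν j : ℤ)) i) ∧
    InS F C (gen W₀ (vals f fun j => (ν j : ℤ))) k q) : ℝ) / (q : ℝ) ^ d

/-- the sum over the primes `q ≤ x` of the tilted probabilities `P_q e^t / (1 - P_q + P_q e^t)` -/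
noncomputable def tilted (P : ℕ → ℝ) (x : ℕ) (t : ℝ) : ℝ :=
  ∑ q ∈ (range (x + 1)).filter Nat.Prime, P q * Real.exp t / (1 - P q + P q * Real.exp t)

/-- the rate `∑ (t P_q e^t / (1 - P_q + P_q e^t) - log (1 - P_q + P_q e^t))`, sum over the primes `q ≤ x` -/
noncomputable def rate (P : ℕ → ℝ) (x : ℕ) (t : ℝ) : ℝ :=
  ∑ q ∈ (range (x + 1)).filter Nat.Prime,
    (t * (P q * Real.exp t / (1 - P q + P q * Real.exp t)) - Real.log (1 - P q + P q * Real.exp t))

/-- the variance `∑ P_q (1 - P_q)`, sum over the primes `q ≤ x` -/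
noncomputable def variance (P : ℕ → ℝ) (x : ℕ) : ℝ := ∑ q ∈ (range (x + 1)).filter Nat.Prime, P q * (1 - P q)

/-- the mean `∑ P_q`, sum over the primes `q ≤ x` -/
noncomputable def mean (P : ℕ → ℝ) (x : ℕ) : ℝ := ∑ q ∈ (range (x + 1)).filter Nat.Prime, P q

/-- `X` lies between `exp (-(1 + ε) R)` and `exp (-(1 - ε) R)` -/
def HasRate (ε R X : ℝ) : Prop := Real.exp (-((1 + ε) * R)) ≤ X ∧ X ≤ Real.exp (-((1 - ε) * R))

/-- the local density `φ(q - 1) / q` of Artin's case -/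
noncomputable def artinDensity (q : ℕ) : ℝ := (Nat.totient (q - 1) : ℝ) / q

lemma inS_iff (F : IntermediateField ℚ (AlgebraicClosure ℚ)) [NumberField F] (C : Set (F ≃ₐ[ℚ] F)) (W : Subgroup ℚˣ) (k q : ℕ) :
    Cond (fun q j => FrobIn F C q ∧ j ∣ k) W q ↔ InS F C W k q := by
  unfold Cond InS
  tauto

lemma total_eq_count (F : IntermediateField ℚ (AlgebraicClosure ℚ)) [NumberField F] (C : Set (F ≃ₐ[ℚ] F)) (W₀ : Subgroup ℚˣ)
    (k : ℕ) {d r : ℕ} (f : Fin r → MvPolynomial (Fin d) ℤ) (x : ℕ) (ν : Fin d → ℤ) :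
    total (wS fun q j => FrobIn F C q ∧ j ∣ k) W₀ f x ν = count F C W₀ k f x ν := by
  classical
  unfold total count
  by_cases h : ∀ i, vals f ν i ≠ 0
  · rw [if_pos h, if_pos (show ∀ i, MvPolynomial.eval ν (f i) ≠ 0 from h), ← filter_filter, card_filter]
    push_cast
    refine sum_congr rfl fun q _ => ?_
    rw [weight_wS]
    have h1 : Cond (fun q j => FrobIn F C q ∧ j ∣ k) (gen W₀ fun i => MvPolynomial.eval ν (f i)) q ↔
      InS F C (gen W₀ (vals f ν)) k q := inS_iff F C _ k q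
    by_cases h2 : InS F C (gen W₀ (vals f ν)) k q
    · rw [if_pos h2, if_pos (h1.2 h2)]
    · rw [if_neg h2, if_neg fun h3 => h2 (h1.1 h3)]
  · rw [if_neg h, if_neg (show ¬ ∀ i, MvPolynomial.eval ν (f i) ≠ 0 from h), Nat.cast_zero]

lemma average_eq (F : IntermediateField ℚ (AlgebraicClosure ℚ)) [NumberField F] (C : Set (F ≃ₐ[ℚ] F)) (W₀ : Subgroup ℚˣ)
    (k : ℕ) {d r : ℕ} (f : Fin r → MvPolynomial (Fin d) ℤ) (q : ℕ) :
    average (wS fun q j => FrobIn F C q ∧ j ∣ k) W₀ f 1 q = localDensity F C W₀ k f q := by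
  classical
  unfold average localDensity
  congr 1
  rw [card_filter]
  push_cast
  refine sum_congr rfl fun ν _ => ?_
  rw [pow_one]
  unfold localWeight
  by_cases h : ∀ i, ¬ (q : ℤ) ∣ vals f (fun j => (ν j : ℤ)) i
  · rw [if_pos (show ∀ i, ¬ (q : ℤ) ∣ MvPolynomial.eval (fun j => (ν j : ℤ)) (f i) from h), weight_wS]
    have h1 : Cond (fun q j => FrobIn F C q ∧ j ∣ k) (gen W₀ fun i => MvPolynomial.eval (fun j => (ν j : ℤ)) (f i)) q ↔
      InS F C (gen W₀ (vals f fun j => (ν j : ℤ))) k q := inS_iff F C _ k q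
    by_cases h2 : InS F C (gen W₀ (vals f fun j => (ν j : ℤ))) k q
    · rw [if_pos (h1.2 h2), if_pos ⟨h, h2⟩]
    · rw [if_neg fun h3 => h2 (h1.1 h3), if_neg fun h3 => h2 h3.2]
  · rw [if_neg (show ¬ ∀ i, ¬ (q : ℤ) ∣ MvPolynomial.eval (fun j => (ν j : ℤ)) (f i) from h), if_neg fun h3 => h h3.1]

/-- **Main result.** -/
theorem result :
    -- (1) Cramér's theorem for Lenstra's sets
    (∀ T ε : ℝ, 0 < T → 0 < ε → ∃ K v₀ : ℝ, 0 < K ∧ 0 < v₀ ∧
      ∀ (F : IntermediateField ℚ (AlgebraicClosure ℚ)) [NumberField F] (C : Set (F ≃ₐ[ℚ] F)) (W₀ : Subgroup ℚˣ) (k d r : ℕ)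
        (f : Fin r → MvPolynomial (Fin d) ℤ) (x : ℕ) (P : ℕ → ℝ), P = localDensity F C W₀ k f →
        ∀ t : ℝ, 0 < t → t ≤ T → v₀ ≤ t ^ 2 * variance P x → ∀ (m : Fin d → ℤ) (L : Fin d → ℕ),
          (∀ i, (d + 1) * (x : ℝ) ^ (K * (t ^ 2 * variance P x)) ≤ L i) →
          HasRate ε (rate P x t) (proportion m L (fun ν => tilted P x t ≤ count F C W₀ k f x ν)) ∧
          HasRate ε (rate P x (-t)) (proportion m L (fun ν => (count F C W₀ k f x ν : ℝ) ≤ tilted P x (-t)))) ∧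
    -- (2) Artin's case
    (∀ T ε : ℝ, 0 < T → 0 < ε → ∃ K v₀ : ℝ, 0 < K ∧ 0 < v₀ ∧
      ∀ (x : ℕ) (t : ℝ), 0 < t → t ≤ T → v₀ ≤ t ^ 2 * variance artinDensity x → ∀ (m : ℤ) (L : ℕ),
          (x : ℝ) ^ (K * (t ^ 2 * variance artinDensity x)) ≤ L →
          HasRate ε (rate artinDensity x t) (share m L (fun n => tilted artinDensity x t ≤ artin n x)) ∧
          HasRate ε (rate artinDensity x (-t)) (share m L (fun n => (artin n x : ℝ) ≤ tilted artinDensity x (-t)))) ∧
    Filter.Tendsto (variance artinDensity) Filter.atTop Filter.atTop ∧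
    -- (3) moderate deviations for Lenstra's sets
    (∀ ε : ℝ, 0 < ε → ∃ K y₀ δ : ℝ, 0 < K ∧ 0 < y₀ ∧ 0 < δ ∧
      ∀ (F : IntermediateField ℚ (AlgebraicClosure ℚ)) [NumberField F] (C : Set (F ≃ₐ[ℚ] F)) (W₀ : Subgroup ℚˣ) (k d r : ℕ)
        (f : Fin r → MvPolynomial (Fin d) ℤ) (x : ℕ) (P : ℕ → ℝ), P = localDensity F C W₀ k f →
        ∀ y : ℝ, y₀ ≤ y → y ≤ δ * Real.sqrt (variance P x) → ∀ (m : Fin d → ℤ) (L : Fin d → ℕ),
          (∀ i, (d + 1) * (x : ℝ) ^ (K * y ^ 2) ≤ L i) →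
          HasRate ε (y ^ 2 / 2) (proportion m L (fun ν => mean P x + y * Real.sqrt (variance P x) ≤ count F C W₀ k f x ν)) ∧
          HasRate ε (y ^ 2 / 2) (proportion m L (fun ν => (count F C W₀ k f x ν : ℝ) ≤ mean P x - y * Real.sqrt (variance P x)))) ∧
    -- (4) moderate deviations in Artin's case
    (∀ ε : ℝ, 0 < ε → ∃ K y₀ δ : ℝ, 0 < K ∧ 0 < y₀ ∧ 0 < δ ∧
      ∀ (x : ℕ) (y : ℝ), y₀ ≤ y → y ≤ δ * Real.sqrt (variance artinDensity x) → ∀ (m : ℤ) (L : ℕ), (x : ℝ) ^ (K * y ^ 2) ≤ L →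
          HasRate ε (y ^ 2 / 2) (share m L (fun n => mean artinDensity x + y * Real.sqrt (variance artinDensity x) ≤ artin n x)) ∧
          HasRate ε (y ^ 2 / 2) (share m L (fun n => (artin n x : ℝ) ≤
            mean artinDensity x - y * Real.sqrt (variance artinDensity x)))) := by
  classical
  refine ⟨fun T ε hT hε => ?_, fun T ε hT hε => ?_, Q69CR.Len.vr_artin, fun ε hε => ?_, fun ε hε => ?_⟩
  · obtain ⟨K, v₀, hK, hv₀, h⟩ := Q69CR.Len.cramer_len T ε hT hε
    refine ⟨K, v₀, hK, by linarith, ?_⟩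
    intro F _ C W₀ k d r f x P hP t ht0 ht hv m L hL
    have h1 := h d r f W₀ (fun q j => FrobIn F C q ∧ j ∣ k) x P (fun q _ => by rw [hP]; exact average_eq F C W₀ k f q) t ht0 ht hv m L hL
    simp only [total_eq_count] at h1
    exact h1
  · obtain ⟨K, v₀, hK, hv₀, h⟩ := Q69CR.Len.cramer_artin T ε hT hε
    refine ⟨K, v₀, hK, by linarith, ?_⟩
    intro x t ht0 ht hv m L hL
    exact h x artinDensity (fun _ => rfl) t ht0 ht hv m L hL
  · obtain ⟨K, y₀, δ, hK, hy₀, hδ, h⟩ := Q69CR.Len.mdp_len ε hε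
    refine ⟨K, y₀, δ, hK, by linarith, hδ, ?_⟩
    intro F _ C W₀ k d r f x P hP y hy hyV m L hL
    have h1 := h d r f W₀ (fun q j => FrobIn F C q ∧ j ∣ k) x P (fun q _ => by rw [hP]; exact average_eq F C W₀ k f q) y hy hyV m L hL
    simp only [total_eq_count] at h1
    exact h1
  · obtain ⟨K, y₀, δ, hK, hy₀, hδ, h⟩ := Q69CR.Len.mdp_artin ε hε
    refine ⟨K, y₀, δ, hK, by linarith, hδ, ?_⟩
    intro x y hy hyV m L hL
    exact h x artinDensity (fun _ => rfl) y hy hyV m L hL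

end Pool.Agent.Results.MP_48b1c3_nt.LargeDeviations
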