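import Mathlib
import Pool.Agent.Results.MP_48b1c3_nt.FewExceptions
import Pool.Agent.Q84.LM1

set_option autoImplicit false

/-! # Lenstra's density for the groups `⟨W₀, D ⌊α u_j⌋ ^ r⟩`, almost every real number `α`

Let `1 / 2 < θ < 1`, `B > 1` and `θ (1 - θ) < B (2 θ - 1)`.  There is `κ > 0` such that for every
sequence `u_j > 0` of reals and every `s > θ` with `∑ u_j ^ (θ - s) < ∞` the following holds for all
real `α > 0` outside a set of `s`-dimensional Hausdorff measure zero (outside a null set if `s = 1`).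

For ALL finite Galois extensions `F / ℚ`, all conjugation-stable `C`, all finitely generated
`W₀ ≤ ℚˣ`, all `k ≥ 1`, all nonzero rational `D` and all `r ≥ 1` such that `ℓ ^ (ν_ℓ(k) + 1)` divides
`r` for every prime `ℓ ∣ r` (every `r` if `k = 1`; `r = 1` for every `k`), the groups
`W_j = ⟨W₀, D ⌊α u_j⌋ ^ r⟩` satisfy: for every `ε > 0` and all large `j`
`|S(x) - δ(F, C, W_j, k) π(x)| ≤ ε π(x)` for EVERY `x` with
`u_j ^ B ≤ x ≤ exp ((log u_j) ^ (1 + κ))`, where `S(x)` is the number of primes `q ≤ x` in the set of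
Q1 and `δ` is Lenstra's density.  For `u_j = 4 ^ j` the set of all exceptional `α` has Hausdorff
dimension at most `θ`.

Libraries: the file `FewExceptions` of this folder (helper401, helper386, helper771, helper981,
helper730) and `Pool.Agent.Q138.Met.Floor` (helper138). -/

namespace Pool.Agent.Results.MP_48b1c3_nt.RealMultiples

open NumberField Filter Topology MeasureTheory Set
open scoped ENNReal NNReal
open Pool.Agent.Q84.LM1 (Small badF null_gen countable_fields countable_fg)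

/-- the number of primes `q ≤ x` in the set of Q1 -/
noncomputable def S (F : IntermediateField ℚ (AlgebraicClosure ℚ)) [NumberField F]
    (C : Set (F ≃ₐ[ℚ] F)) (W : Subgroup ℚˣ) (k x : ℕ) : ℕ :=
  Nat.card {q : ℕ // q ≤ x ∧ q.Prime ∧
    (∃ σ ∈ C, ∃ Q : Ideal (𝓞 F), Q.IsPrime ∧
        Q.comap (algebraMap ℤ (𝓞 F)) = Ideal.span {(q : ℤ)} ∧
        ∀ a b : 𝓞 F, (b : F) = σ (a : F) → b - a ^ q ∈ Q) ∧
    (∀ w ∈ W, padicValRat q (w : ℚ) = 0) ∧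
    (Subgroup.closure {u : (ZMod q)ˣ | ∃ w ∈ W,
        (((w : ℚ).num : ℤ) : ZMod q) = (u : ZMod q) * (((w : ℚ).den : ℕ) : ZMod q)}).index ∣ k}

/-- Lenstra's density -/
noncomputable def δ (F : IntermediateField ℚ (AlgebraicClosure ℚ)) [NumberField F]
    (C : Set (F ≃ₐ[ℚ] F)) (W : Subgroup ℚˣ) (k : ℕ) : ℝ :=
  ∑' n : ℕ, (ArithmeticFunction.moebius n : ℝ) *
    (Nat.card {σ : F ≃ₐ[ℚ] F // σ ∈ C ∧ ∀ y : F,
        (y : AlgebraicClosure ℚ) ∈ IntermediateField.adjoin ℚ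
          {z : AlgebraicClosure ℚ | ∃ w ∈ W,
            z ^ (∏ l ∈ n.primeFactors, l ^ (k.factorization l + 1)) =
              algebraMap ℚ (AlgebraicClosure ℚ) (w : ℚ)} → σ y = y} : ℝ) /
    (Module.finrank ℚ ↥(F ⊔ IntermediateField.adjoin ℚ
          {z : AlgebraicClosure ℚ | ∃ w ∈ W,
            z ^ (∏ l ∈ n.primeFactors, l ^ (k.factorization l + 1)) =
              algebraMap ℚ (AlgebraicClosure ℚ) (w : ℚ)}) : ℝ)

/-- the group `⟨W₀, D n ^ r⟩` -/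
def G (W₀ : Subgroup ℚˣ) (D : ℚˣ) (r n : ℕ) : Subgroup ℚˣ :=
  W₀ ⊔ Subgroup.closure {w : ℚˣ | (w : ℚ) = (D : ℚ) * (n : ℚ) ^ r}

/-- the counts `f j x` are `(a j + o(1)) π(x)` as `j → ∞`, uniformly for
`u_j ^ B ≤ x ≤ exp ((log u_j) ^ (1 + κ))` -/
def Near (u : ℕ → ℝ) (B κ : ℝ) (f : ℕ → ℕ → ℕ) (a : ℕ → ℝ) : Prop :=
  ∀ ε : ℝ, 0 < ε → ∀ᶠ j in atTop, ∀ x : ℕ, (u j) ^ B ≤ x →
    (x : ℝ) ≤ Real.exp ((Real.log (u j)) ^ (1 + κ)) →
      |(f j x : ℝ) - a j * (Nat.primeCounting x : ℝ)| ≤ ε * (Nat.primeCounting x : ℝ)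

/-- the exceptional `α`: Lenstra's density fails for some `F, C, W₀, k, D, r` -/
def Exc (u : ℕ → ℝ) (B κ : ℝ) : Set ℝ :=
  {α | 0 < α ∧ ∃ (F : IntermediateField ℚ (AlgebraicClosure ℚ)) (_ : NumberField F)
    (_ : IsGalois ℚ F) (C : Set (F ≃ₐ[ℚ] F)) (W₀ : Subgroup ℚˣ) (k : ℕ) (D : ℚˣ) (r : ℕ),
    (∀ σ ∈ C, ∀ τ : F ≃ₐ[ℚ] F, τ * σ * τ⁻¹ ∈ C) ∧ W₀.FG ∧ 0 < k ∧ 0 < r ∧
    (∀ l : ℕ, l.Prime → l ∣ r → l ^ (k.factorization l + 1) ∣ r) ∧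
    ¬ Near u B κ (fun j x => S F C (G W₀ D r ⌊α * u j⌋₊) k x)
      (fun j => δ F C (G W₀ D r ⌊α * u j⌋₊) k)}

lemma null_union {θ B B0 κ s : ℝ} (hθ : 0 ≤ θ) (hθs : θ < s) (hB0 : 0 ≤ B0) (hBB : B0 < B)
    (hκ : 0 < κ)
    (hall : ∀ (F : IntermediateField ℚ (AlgebraicClosure ℚ)) [NumberField F] [IsGalois ℚ F]
        (C : Set (F ≃ₐ[ℚ] F)) (W₀ : Subgroup ℚˣ) (k : ℕ) (D : ℚˣ) (r : ℕ),
        (∀ σ ∈ C, ∀ τ : F ≃ₐ[ℚ] F, τ * σ * τ⁻¹ ∈ C) → W₀.FG → 0 < k →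
        0 < r → (∀ l : ℕ, l.Prime → l ∣ r → l ^ (k.factorization l + 1) ∣ r) →
        ∀ ε : ℝ, 0 < ε → ∃ N₀ : ℕ, ∀ N : ℕ, N₀ ≤ N →
          ((badF (fun n x => |(S F C (G W₀ D r n) k x : ℝ) - δ F C (G W₀ D r n) k *
            (Nat.primeCounting x : ℝ)|) ε B0 κ N).card : ℝ) ≤ (N : ℝ) ^ θ)
    (u : ℕ → ℝ) (hu : ∀ k, 0 < u k) (hsum : Summable fun k => (u k) ^ (θ - s)) :
    μH[s] (Exc u B κ) = 0 := by
  have hsub : Exc u B κ ⊆
      ⋃ F ∈ {F : IntermediateField ℚ (AlgebraicClosure ℚ) | FiniteDimensional ℚ F},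
        ⋃ W₀ ∈ {W : Subgroup ℚˣ | W.FG},
          {α : ℝ | 0 < α ∧ ∃ (_ : NumberField F)
            (_ : IsGalois ℚ F) (C : Set (F ≃ₐ[ℚ] F)) (k : ℕ) (D : ℚˣ) (r : ℕ),
            (∀ σ ∈ C, ∀ τ : F ≃ₐ[ℚ] F, τ * σ * τ⁻¹ ∈ C) ∧ W₀.FG ∧ 0 < k ∧ 0 < r ∧
            (∀ l : ℕ, l.Prime → l ∣ r → l ^ (k.factorization l + 1) ∣ r) ∧
            ¬ Near u B κ (fun j x => S F C (G W₀ D r ⌊α * u j⌋₊) k x)
              (fun j => δ F C (G W₀ D r ⌊α * u j⌋₊) k)} := by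
    rintro α ⟨hα, F, h1, h2, C, W₀, k, D, r, h3, h4, h5⟩
    refine mem_biUnion (x := F) h1.to_finiteDimensional ?_
    refine mem_biUnion (x := W₀) h4 ?_
    exact ⟨hα, h1, h2, C, k, D, r, h3, h4, h5⟩
  refine measure_mono_null hsub ?_
  rw [measure_biUnion_null_iff countable_fields]
  intro F hF
  rw [measure_biUnion_null_iff countable_fg]
  intro W₀ hW₀
  by_cases hG : ∃ (_ : NumberField F), IsGalois ℚ F
  swap
  · convert measure_empty (μ := (μH[s] : Measure ℝ))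
    rw [eq_empty_iff_forall_notMem]
    rintro α ⟨_, h1, h2, _⟩
    exact hG ⟨h1, h2⟩
  obtain ⟨h1, h2⟩ := hG
  have hfin : Finite (F ≃ₐ[ℚ] F) := by
    have : FiniteDimensional ℚ F := hF
    infer_instance
  have hcu : Countable ℚˣ := Function.Injective.countable (f := fun x : ℚˣ => (x : ℚ)) Units.val_injective
  have hsub2 : {α : ℝ | 0 < α ∧ ∃ (_ : NumberField F)
            (_ : IsGalois ℚ F) (C : Set (F ≃ₐ[ℚ] F)) (k : ℕ) (D : ℚˣ) (r : ℕ),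
            (∀ σ ∈ C, ∀ τ : F ≃ₐ[ℚ] F, τ * σ * τ⁻¹ ∈ C) ∧ W₀.FG ∧ 0 < k ∧ 0 < r ∧
            (∀ l : ℕ, l.Prime → l ∣ r → l ^ (k.factorization l + 1) ∣ r) ∧
            ¬ Near u B κ (fun j x => S F C (G W₀ D r ⌊α * u j⌋₊) k x)
              (fun j => δ F C (G W₀ D r ⌊α * u j⌋₊) k)} ⊆
      ⋃ i : Set (F ≃ₐ[ℚ] F) × ℕ × ℚˣ × ℕ, {α : ℝ |
            (∀ σ ∈ i.1, ∀ τ : F ≃ₐ[ℚ] F, τ * σ * τ⁻¹ ∈ i.1) ∧ 0 < i.2.1 ∧ 0 < i.2.2.2 ∧
            (∀ l : ℕ, l.Prime → l ∣ i.2.2.2 → l ^ (i.2.1.factorization l + 1) ∣ i.2.2.2) ∧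
            0 < α ∧ ¬ Small u B κ (fun j x =>
              |(S F i.1 (G W₀ i.2.2.1 i.2.2.2 ⌊α * u j⌋₊) i.2.1 x : ℝ) -
                δ F i.1 (G W₀ i.2.2.1 i.2.2.2 ⌊α * u j⌋₊) i.2.1 *
                  (Nat.primeCounting x : ℝ)|)} := by
    rintro α ⟨hα, _, _, C, k, D, r, h3, _, h5, h6, h7, h8⟩
    exact mem_iUnion.2 ⟨(C, k, D, r), h3, h5, h6, h7, hα, h8⟩
  refine measure_mono_null hsub2 (measure_iUnion_null fun i => ?_)
  by_cases hi : (∀ σ ∈ i.1, ∀ τ : F ≃ₐ[ℚ] F, τ * σ * τ⁻¹ ∈ i.1) ∧ 0 < i.2.1 ∧ 0 < i.2.2.2 ∧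
            (∀ l : ℕ, l.Prime → l ∣ i.2.2.2 → l ^ (i.2.1.factorization l + 1) ∣ i.2.2.2)
  · obtain ⟨g1, g2, g3, g4⟩ := hi
    refine measure_mono_null ?_ (null_gen hθ hθs hB0 hBB hκ _
      (hall F i.1 W₀ i.2.1 i.2.2.1 i.2.2.2 g1 hW₀ g2 g3 g4) u hu hsum)
    rintro α ⟨_, _, _, _, h5, h6⟩
    exact ⟨h5, h6⟩
  · convert measure_empty (μ := (μH[s] : Measure ℝ))
    rw [eq_empty_iff_forall_notMem]
    rintro α ⟨g1, g2, g3, g4, _⟩
    exact hi ⟨g1, g2, g3, g4⟩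

theorem result (θ B : ℝ) (hθ : 1 / 2 < θ) (hθ1 : θ < 1) (hB : 1 < B)
    (hBθ : θ * (1 - θ) < B * (2 * θ - 1)) :
    ∃ κ : ℝ, 0 < κ ∧
      (∀ u : ℕ → ℝ, (∀ j, 0 < u j) → ∀ s : ℝ, θ < s → Summable (fun j => (u j) ^ (θ - s)) →
        μH[s] (Exc u B κ) = 0) ∧
      (∀ u : ℕ → ℝ, (∀ j, 0 < u j) → Summable (fun j => (u j) ^ (θ - 1)) →
        volume (Exc u B κ) = 0) ∧
      dimH (Exc (fun j => (4 : ℝ) ^ j) B κ) ≤ ENNReal.ofReal θ := by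
  have h2θ : 0 < 2 * θ - 1 := by linarith
  obtain ⟨B0, hB01, hB0B, hB0θ⟩ : ∃ B0 : ℝ, 1 < B0 ∧ B0 < B ∧ θ * (1 - θ) < B0 * (2 * θ - 1) := by
    have h1 : θ * (1 - θ) / (2 * θ - 1) < B := by
      rw [div_lt_iff₀ h2θ]
      exact hBθ
    obtain ⟨B0, h2, h3⟩ := exists_between (max_lt hB h1)
    refine ⟨B0, lt_of_le_of_lt (le_max_left _ _) h2, h3, ?_⟩
    have h4 := lt_of_le_of_lt (le_max_right _ _) h2
    rwa [div_lt_iff₀ h2θ] at h4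
  obtain ⟨κ, hκ, hall⟩ := FewExceptions.result θ B0 hθ hθ1 hB01 hB0θ
  have hnull : ∀ u : ℕ → ℝ, (∀ j, 0 < u j) → ∀ s : ℝ, θ < s →
      Summable (fun j => (u j) ^ (θ - s)) → μH[s] (Exc u B κ) = 0 := by
    intro u hu s hs hsum
    refine null_union (by linarith) hs (by linarith) hB0B hκ ?_ u hu hsum
    intro F _ _ C W₀ k D r h1 h2 h3 h4 h5 ε hε
    exact hall F C W₀ k D r h1 h2 h3 h4 h5 ε hε
  refine ⟨κ, hκ, hnull, fun u hu hsum => ?_, ?_⟩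
  · rw [← hausdorffMeasure_real]
    exact hnull u hu 1 hθ1 hsum
  · have h4 : ∀ s : ℝ, θ < s → dimH (Exc (fun j => (4 : ℝ) ^ j) B κ) ≤ ENNReal.ofReal s := by
      intro s hs
      have hs0 : 0 ≤ s := by linarith
      have h5 := hnull (fun j => (4 : ℝ) ^ j) (fun j => by positivity) s hs ?_
      · change _ ≤ ((s.toNNReal : ℝ≥0) : ℝ≥0∞)
        apply dimH_le_of_hausdorffMeasure_ne_top
        rw [Real.coe_toNNReal s hs0, h5]
        exact ENNReal.zero_ne_top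
      · have h7 : (fun j : ℕ => ((4 : ℝ) ^ j) ^ (θ - s)) = fun j : ℕ => ((4 : ℝ) ^ (θ - s)) ^ j := by
          funext j
          rw [← Real.rpow_natCast, ← Real.rpow_natCast, ← Real.rpow_mul (by norm_num),
            ← Real.rpow_mul (by norm_num), mul_comm]
        rw [h7]
        apply summable_geometric_of_lt_one (by positivity)
        apply Real.rpow_lt_one_of_one_lt_of_neg (by norm_num) (by linarith)
    apply ENNReal.le_of_forall_pos_le_add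
    intro ε hε _
    have h5 := h4 (θ + ε) (by have : (0 : ℝ) < ε := by exact_mod_cast hε
                              linarith)
    refine h5.trans (le_of_eq ?_)
    rw [ENNReal.ofReal_add (by linarith) (NNReal.coe_nonneg _), ENNReal.ofReal_coe_nnreal]

end Pool.Agent.Results.MP_48b1c3_nt.RealMultiples
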