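import Pool.Agent.Q84.AR7

set_option autoImplicit false

namespace Pool.Agent.Results.MP_48b1c3_nt.SimultaneousGroups

/-- The set `S(F, C, W, κ)` for the `m`-th cyclotomic field `F` and `C = {σ_a}`: primes
`q ≡ a mod m` at which all elements of `W` are units, such that the index of the image of `W` in
`(ℤ/q)ˣ` divides `κ`. -/
def InS (m a κ : ℕ) (W : Subgroup ℚˣ) (q : ℕ) : Prop :=
  q.Prime ∧ q ≡ a [MOD m] ∧ (∀ w ∈ W, padicValRat q (w : ℚ) = 0) ∧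
    (Subgroup.closure {u : (ZMod q)ˣ | ∃ w ∈ W, (((w : ℚ).num : ℤ) : ZMod q) =
      (u : ZMod q) * (((w : ℚ).den : ℕ) : ZMod q)}).index ∣ κ

/-- For every `k` there is `D` such that infinitely many `k`-term arithmetic progressions
`x, x + d, ..., x + (k - 1) d` with `d ≤ (log x) ^ D` consist of elements of the sets
`S(F, C, W, κ)` for all the pairs `(W, κ)` of the finite set `I` at the same time. -/
def Prog (m a : ℕ) (I : Finset (Subgroup ℚˣ × ℕ)) : Prop :=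
  ∀ k : ℕ, ∃ D : ℕ, ∀ A : ℕ, ∃ x d : ℕ, A ≤ x ∧ 0 < d ∧ (d : ℝ) ≤ Real.log x ^ D ∧
    ∀ j < k, ∀ P ∈ I, InS m a P.2 P.1 (x + j * d)

/-- the rank of `V` is at least `R` -/
def RankGE (R : ℕ) (V : Subgroup ℚˣ) : Prop :=
  ∃ b : Fin R → ℚˣ, (∀ j, b j ∈ V) ∧ ∀ e : Fin R → ℤ, ∏ j, b j ^ e j = 1 → ∀ j, e j = 0

/-- There is an absolute constant `K` such that for every `m > 0` and `a` prime to `m`, `a` not `1` modulo
any odd prime factor of `m`, there are `K` groups of rational numbers of rank less than `K` with the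
following property: if `I` is any finite set of pairs `(W, κ)`, `W` a finitely generated group contained in
none of the `K` groups, such that for the primes `q ≡ a mod m` there is no obstruction at `2` to the
divisibility of `κ` by the index of `W` modulo `q`, then `Prog m a I` holds. -/
theorem result : ∃ K : ℕ, ∀ m a : ℕ, 0 < m → a.Coprime m →
    (∀ l : ℕ, l.Prime → l ∣ m → l ≠ 2 → ¬ a ≡ 1 [MOD l]) →
    ∃ G : Fin K → Subgroup ℚˣ, (∀ i, ¬ RankGE K (G i)) ∧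
      ∀ I : Finset (Subgroup ℚˣ × ℕ), (∀ P ∈ I, 0 < P.2 ∧ P.1.FG ∧ (∀ i, ¬ P.1 ≤ G i) ∧
        ((∃ N : ℕ, ∀ q : ℕ, N < q → q.Prime → q ≡ a [MOD m] →
            ∃ w ∈ P.1, ¬ IsSquare (((w : ℚ).num * (w : ℚ).den : ℤ) : ZMod q)) ∨
          (2 ^ (P.2.factorization 2 + 1) ∣ m ∧ ¬ a ≡ 1 [MOD 2 ^ (P.2.factorization 2 + 1)]))) →
      Prog m a I := by
  classical
  obtain ⟨K, hK2, hmain⟩ := Pool.Agent.Q84.AR.main3
  refine ⟨K, fun m a hm ham ha1 => ?_⟩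
  obtain ⟨G, hG1, hG2⟩ := hmain m a hm ham ha1
  refine ⟨G, fun i ⟨b, hb1, hb2⟩ => hG1 i b hb1 hb2, fun I hI k => ?_⟩
  -- the bounds for nonresidues
  have hnr : ∀ P : Subgroup ℚˣ × ℕ, ∃ N : ℕ, P ∈ I → (∀ q : ℕ, N < q → q.Prime → q ≡ a [MOD m] →
      (∃ w ∈ P.1, ¬ IsSquare (((w : ℚ).num * (w : ℚ).den : ℤ) : ZMod q)) ∨
      ¬ 2 ^ (P.2.factorization 2 + 1) ∣ q - 1) := by
    intro P
    by_cases hP : P ∈ I
    · rcases (hI P hP).2.2.2 with ⟨N, hN⟩ | ⟨h1, h2⟩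
      · exact ⟨N, fun _ q hq hqp hqa => Or.inl (hN q hq hqp hqa)⟩
      · refine ⟨0, fun _ q _ hqp hqa => Or.inr fun h3 => h2 ?_⟩
        have h4 : q ≡ 1 [MOD 2 ^ (P.2.factorization 2 + 1)] :=
          ((Nat.modEq_iff_dvd' hqp.one_lt.le).2 h3).symm
        exact (hqa.of_dvd h1).symm.trans h4
    · exact ⟨0, fun h => absurd h hP⟩
  choose NN hNN using hnr
  obtain ⟨D, hD⟩ := hG2 (I.image Prod.fst) (by
    intro W hW
    obtain ⟨P, hP, rfl⟩ := Finset.mem_image.1 hW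
    exact ⟨(hI P hP).2.1, (hI P hP).2.2.1⟩) k
  refine ⟨D, fun A => ?_⟩
  obtain ⟨x, d, h1, h2, h3, h4⟩ := hD (A + I.sup NN + 2)
  refine ⟨x, d, by omega, h2, h3, fun j hj P hP => ?_⟩
  obtain ⟨hp, hpA, hpa, hW⟩ := h4 j hj
  obtain ⟨hWu, hodd⟩ := hW P.1 (Finset.mem_image_of_mem _ hP)
  have h6 : NN P ≤ I.sup NN := Finset.le_sup hP
  exact ⟨hp, hpa, Pool.Agent.Y855.val_zero _ hp P.1 hWu,
    Pool.Agent.Y855.index_dvd _ hp (by omega) P.1 hWu hodd P.2 (hNN P hP _ (by omega) hp hpa)⟩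

end Pool.Agent.Results.MP_48b1c3_nt.SimultaneousGroups
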